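import Pool.Agent.W622.BK.Stm

/-!
# The dimension count (part DIM)
-/

set_option autoImplicit false

namespace Pool.Agent.W398.BK

open Module Pool.Agent.W622.BK

universe u

theorem step {k : Type u} [Field k] {V V₂ : Type u} [AddCommGroup V] [Module k V]
    [AddCommGroup V₂] [Module k V₂] [FiniteDimensional k V] (K : Submodule k V) (f : V →ₗ[k] V₂) :
    finrank k K ≤ finrank k (K.map f) + finrank k (K ⊓ LinearMap.ker f : Submodule k V) := by
  have h1 := LinearMap.finrank_range_add_finrank_ker (f.domRestrict K)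
  rw [LinearMap.range_domRestrict] at h1
  have h2 : (LinearMap.ker (f.domRestrict K)).map K.subtype ≤ K ⊓ LinearMap.ker f := by
    intro r hr
    rw [Submodule.mem_map] at hr
    obtain ⟨⟨r', hr'⟩, hk, rfl⟩ := hr
    exact ⟨hr', hk⟩
  have h3 := Submodule.finrank_mono h2
  have h4 : finrank k ((LinearMap.ker (f.domRestrict K)).map K.subtype) =
      finrank k (LinearMap.ker (f.domRestrict K)) :=
    (Submodule.equivMapOfInjective K.subtype (Submodule.subtype_injective K) _).finrank_eq.symm
  omega

theorem many {k : Type u} [Field k] {E : Type u} [AddCommGroup E] [Module k E]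
    [FiniteDimensional k E] (R : Submodule k (E →ₗ[k] E →ₗ[k] k)) (X : Submodule k (E →ₗ[k] k))
    (m : ℕ) (hmax : ∀ v, finrank k (Nn R X v) ≤ m) (l : List E) :
    ∃ K : Submodule k (E →ₗ[k] E →ₗ[k] k), (∀ r ∈ K, r ∈ Rx R X ∧ ∀ e ∈ l, r e = 0) ∧
      finrank k (Rx R X) ≤ l.length * m + finrank k K := by
  induction l with
  | nil => exact ⟨Rx R X, fun r hr => ⟨hr, by simp⟩, by simp⟩
  | cons e l ih =>
    obtain ⟨K, hK, hK2⟩ := ih
    let f : (E →ₗ[k] E →ₗ[k] k) →ₗ[k] (E →ₗ[k] k) := LinearMap.applyₗ e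
    refine ⟨K ⊓ LinearMap.ker f, ?_, ?_⟩
    · intro r hr
      refine ⟨(hK r hr.1).1, ?_⟩
      intro e' he'
      rcases List.mem_cons.mp he' with rfl | he'
      · exact hr.2
      · exact (hK r hr.1).2 e' he'
    · have h1 : finrank k K ≤ finrank k (K.map f) +
          finrank k (K ⊓ LinearMap.ker f : Submodule k (E →ₗ[k] E →ₗ[k] k)) :=
        step (V := E →ₗ[k] E →ₗ[k] k) (V₂ := E →ₗ[k] k) K f
      have h2 : finrank k (K.map f) ≤ m := by
        refine (Submodule.finrank_mono ?_).trans (hmax e)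
        intro g hg
        rw [Submodule.mem_map] at hg
        obtain ⟨r, hr, rfl⟩ := hg
        exact Submodule.mem_map_of_mem (hK r hr).1
      rw [List.length_cons, Nat.succ_mul]
      omega

theorem t_DIM : Pool.Agent.W622.BK.S_DIM.{u} := by
  intro k _ E _ _ _ R hR X u hmax
  have hWX : Nn R X u ≤ X := by
    intro f hf
    unfold Nn at hf
    rw [Submodule.mem_map] at hf
    obtain ⟨r, hr, rfl⟩ := hf
    exact hr.2 u
  have hskew : ∀ r ∈ R, ∀ a b : E, r a b = - r b a := by
    intro r hr a b
    have h1 := hR r hr (a + b)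
    have h2 := hR r hr a
    have h3 := hR r hr b
    simp only [map_add, LinearMap.add_apply] at h1
    rw [h2, h3] at h1
    linear_combination h1
  generalize Nn R X u = W at hWX hmax ⊢
  obtain ⟨A, hAdef⟩ : ∃ A : Submodule k E, A = Submodule.dualCoannihilator W := ⟨_, rfl⟩
  obtain ⟨B, hBdef⟩ : ∃ B : Submodule k E, B = Submodule.dualCoannihilator X := ⟨_, rfl⟩
  have hBA : B ≤ A := by
    rw [hAdef, hBdef]
    exact Submodule.dualCoannihilator_anti hWX
  have hA : finrank k W + finrank k A = finrank k E := by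
    rw [hAdef]
    exact Subspace.finrank_add_finrank_dualCoannihilator_eq W
  have hB : finrank k X + finrank k B = finrank k E := by
    rw [hBdef]
    exact Subspace.finrank_add_finrank_dualCoannihilator_eq X
  obtain ⟨C', hC'⟩ := Submodule.exists_isCompl B
  obtain ⟨C, hCdef⟩ : ∃ C : Submodule k E, C = C' ⊓ A := ⟨_, rfl⟩
  have hBC : B ⊔ C = A := by
    have h1 : B ⊔ C' ⊓ A = (B ⊔ C') ⊓ A := (sup_inf_assoc_of_le C' hBA).symm
    rw [hCdef, h1, hC'.sup_eq_top, top_inf_eq]
  have hBC0 : B ⊓ C = ⊥ := by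
    apply le_bot_iff.mp
    rw [← hC'.inf_eq_bot, hCdef]
    exact inf_le_inf_left B inf_le_left
  have hC : finrank k C = finrank k X - finrank k W := by
    have h1 := Submodule.finrank_sup_add_finrank_inf_eq B C
    rw [hBC, hBC0, finrank_bot] at h1
    omega
  have bs : Basis (Fin (finrank k C)) k C := finBasis k C
  obtain ⟨K, hK, hK2⟩ := many R X (finrank k W) hmax (List.ofFn (fun i => (bs i : E)))
  rw [List.length_ofFn, hC] at hK2
  have hker : K ≤ Rx R W := by
    intro r hr
    obtain ⟨hr', hk⟩ := hK r hr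
    refine ⟨hr'.1, ?_⟩
    have hk1 : ∀ i, r (bs i : E) = 0 := by
      intro i
      exact hk _ (List.mem_ofFn.mpr ⟨i, rfl⟩)
    have hk2 : ∀ c ∈ C, r c = 0 := by
      intro c hc
      have h1 : (r ∘ₗ C.subtype) = 0 := by
        apply bs.ext
        intro i
        exact hk1 i
      exact LinearMap.congr_fun h1 ⟨c, hc⟩
    have hk3 : ∀ b ∈ B, r b = 0 := by
      intro b hb
      apply LinearMap.ext
      intro e
      rw [hskew r hr'.1 b e]
      have : r e b = 0 := by
        rw [hBdef] at hb
        have hb2 := (Submodule.mem_dualCoannihilator (Φ := X) b).mp hb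
        exact hb2 _ (hr'.2 e)
      rw [this, neg_zero, LinearMap.zero_apply]
    have hk4 : ∀ a ∈ A, r a = 0 := by
      intro a ha
      rw [← hBC] at ha
      obtain ⟨b, hb, c, hc, rfl⟩ := Submodule.mem_sup.mp ha
      rw [map_add, hk3 b hb, hk2 c hc, add_zero]
    intro e
    have h5 : r e ∈ (Submodule.dualCoannihilator W).dualAnnihilator := by
      rw [Submodule.mem_dualAnnihilator]
      intro a ha
      rw [← hAdef] at ha
      rw [hskew r hr'.1 e a, hk4 a ha, LinearMap.zero_apply, neg_zero]
    rwa [Subspace.dualCoannihilator_dualAnnihilator_eq] at h5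
  have h1 := Submodule.finrank_mono hker
  omega

end Pool.Agent.W398.BK
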